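import Mathlib
import Pool.Agent.H.MP_090ff9_an.A

namespace Pool.Agent.Results.MP_090ff9_an.Yes

open Finset Filter Topology MeasureTheory

/-- The average shadowing property. -/
def ASP {X : Type*} [MetricSpace X] (f : X → X) : Prop :=
  ∀ ε : ℝ, 0 < ε → ∃ δ : ℝ, 0 < δ ∧ ∀ x : ℕ → X,
    (∃ N : ℕ, ∀ n : ℕ, N ≤ n → ∀ k : ℕ,
      (1 / n : ℝ) * ∑ i ∈ range n, dist (f (x (i + k))) (x (i + k + 1)) < δ) →
    ∃ y : X, limsup (fun n : ℕ => (1 / n : ℝ) * ∑ i ∈ range n, dist (f^[i] y) (x i)) atTop < ε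

/-- The asymptotic average shadowing property. -/
def AASP {X : Type*} [MetricSpace X] (f : X → X) : Prop :=
  ∀ x : ℕ → X,
    Tendsto (fun n : ℕ => (1 / n : ℝ) * ∑ i ∈ range n, dist (f (x i)) (x (i + 1))) atTop (𝓝 0) →
    ∃ y : X, Tendsto (fun n : ℕ => (1 / n : ℝ) * ∑ i ∈ range n, dist (f^[i] y) (x i)) atTop (𝓝 0)

/-- The almost specification property, with mistake function `g` and threshold `κ = k_g`. -/
def AlmostSpec {X : Type*} [MetricSpace X] (f : X → X) : Prop :=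
  ∃ (ε₀ : ℝ) (g : ℕ → ℝ → ℕ) (κ : ℝ → ℕ), 0 < ε₀ ∧
    (∀ ε, 0 < ε → ∀ n, 1 ≤ n → g n ε ≤ g (n + 1) ε) ∧
    (∀ ε, 0 < ε → Tendsto (fun n : ℕ => (g n ε : ℝ) / n) atTop (𝓝 0)) ∧
    (∀ ε, ε₀ < ε → ∀ n, g n ε = g n ε₀) ∧
    (∀ ε, 0 < ε → ∀ n, 1 ≤ n → κ ε ≤ n → g n ε < n) ∧
    ∀ m : ℕ, 1 ≤ m → ∀ (ε : ℕ → ℝ) (x : ℕ → X) (n : ℕ → ℕ),
      (∀ j < m, 0 < ε j ∧ κ (ε j) ≤ n j) →
      ∃ z : X, ∀ j < m, ∃ Λ ⊆ range (n j), n j ≤ Λ.card + g (n j) (ε j) ∧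
        ∀ i ∈ Λ, dist (f^[i] (x j)) (f^[i] (f^[∑ l ∈ range j, n l] z)) < ε j

/-- The complement of the union of all open sets that are null for every invariant measure. -/
def measureCenter {X : Type*} [MetricSpace X] [MeasurableSpace X] (f : X → X) : Set X :=
  (⋃₀ {U : Set X | IsOpen U ∧
    ∀ μ : Measure X, IsProbabilityMeasure μ → MeasurePreserving f μ μ → μ U = 0})ᶜ

/-- Topological mixing. -/
def TopMixing {X : Type*} [MetricSpace X] (f : X → X) : Prop :=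
  ∀ U V : Set X, IsOpen U → U.Nonempty → IsOpen V → V.Nonempty →
    ∃ N : ℕ, ∀ n : ℕ, N ≤ n → (f^[n] '' U ∩ V).Nonempty

theorem result {X : Type*} [MetricSpace X] [CompactSpace X] [MeasurableSpace X] [BorelSpace X]
    (f : X → X) (_hf : Continuous f) (hP : ASP f ∨ AASP f ∨ AlmostSpec f)
    (h : measureCenter f = Set.univ) :
    (Nontrivial X → 0 < Dynamics.coverEntropy f Set.univ) ∧
      (TopMixing f ∨ 0 < Dynamics.coverEntropy f Set.univ) :=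
  Pool.Agent.H.MP_090ff9_an.main f hP h

end Pool.Agent.Results.MP_090ff9_an.Yes
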